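import Mathlib

/-!
# Project PF (helper783), part TRR: transfer of forms and complex embeddings

By helper374.
-/

set_option autoImplicit false
set_option linter.all false

open Matrix NumberField
open scoped Kronecker ComplexConjugate

namespace Pool.Agent.N374.PF.TrrA

/-! ### Symmetric matrices over `ℂ` -/

lemma exists_diag {K : Type} [Field K] [CharZero K] {ι : Type} [Fintype ι] [DecidableEq ι]
    (G : Matrix ι ι K) (hs : G.IsSymm) :
    ∃ (a : ι → K) (T : Matrix ι ι K), IsUnit T.det ∧ T * Matrix.diagonal a * Tᵀ = G := by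
  set B : LinearMap.BilinForm K (ι → K) := Matrix.toBilin' G with hBd
  have hBa : ∀ x y, B x y = x ⬝ᵥ G *ᵥ y := fun x y => by rw [hBd, Matrix.toBilin'_apply']
  have hBs : LinearMap.IsSymm B := by
    refine ⟨fun x y => ?_⟩
    show B x y = B y x
    rw [hBa, hBa, Matrix.dotProduct_mulVec, dotProduct_comm, ← Matrix.mulVec_transpose, hs.eq]
  haveI : Invertible (2 : K) := invertibleOfNonzero two_ne_zero
  obtain ⟨v, hv⟩ := LinearMap.BilinForm.exists_orthogonal_basis hBs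
  have hfr : Module.finrank K (ι → K) = Fintype.card ι := by simp
  set e : Fin (Module.finrank K (ι → K)) ≃ ι :=
    (finCongr hfr).trans (Fintype.equivFin ι).symm with he
  set w := v.reindex e with hw
  have hwo : ∀ i j, i ≠ j → B (w i) (w j) = 0 := by
    intro i j hij
    rw [hw, Module.Basis.reindex_apply, Module.Basis.reindex_apply]
    apply hv
    intro h
    exact hij (e.symm.injective h)
  set P : Matrix ι ι K := Matrix.of fun i j => w i j with hP
  have hPu : IsUnit P := by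
    rw [← Matrix.linearIndependent_rows_iff_isUnit]
    exact w.linearIndependent
  have hPd : IsUnit P.det := (Matrix.isUnit_iff_isUnit_det _).1 hPu
  have hPG : P * G * Pᵀ = Matrix.diagonal fun i => B (w i) (w i) := by
    ext i j
    have e : (P * G * Pᵀ) i j = B (w i) (w j) := by
      rw [hBa, Matrix.dotProduct_mulVec]
      rfl
    rw [e, Matrix.diagonal_apply]
    by_cases hij : i = j
    · subst hij
      rw [if_pos rfl]
    · rw [if_neg hij]
      exact hwo i j hij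
  refine ⟨fun i => B (w i) (w i), P⁻¹, Matrix.isUnit_nonsing_inv_det P hPd, ?_⟩
  rw [← hPG, Matrix.transpose_nonsing_inv]
  have hPt : IsUnit Pᵀ.det := by rwa [Matrix.det_transpose]
  calc P⁻¹ * (P * G * Pᵀ) * (Pᵀ)⁻¹ = (P⁻¹ * P) * G * (Pᵀ * (Pᵀ)⁻¹) := by
        simp only [Matrix.mul_assoc]
    _ = G := by
        rw [Matrix.nonsing_inv_mul _ hPd, Matrix.mul_nonsing_inv _ hPt, Matrix.one_mul,
          Matrix.mul_one]

lemma exists_sqrt {ι : Type} [Fintype ι] [DecidableEq ι] (G : Matrix ι ι ℂ) (hs : G.IsSymm) :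
    ∃ P : Matrix ι ι ℂ, P * Pᵀ = G := by
  obtain ⟨a, T, hT, h⟩ := exists_diag G hs
  have : ∀ i, ∃ s : ℂ, s * s = a i := fun i => by
    obtain ⟨s, hs⟩ := IsAlgClosed.exists_pow_nat_eq (a i) (n := 2) (by norm_num)
    exact ⟨s, by rw [← hs, sq]⟩
  choose s hs using this
  refine ⟨T * Matrix.diagonal s, ?_⟩
  rw [Matrix.transpose_mul, Matrix.diagonal_transpose, ← Matrix.mul_assoc,
    Matrix.mul_assoc T, Matrix.diagonal_mul_diagonal]
  simp only [hs]
  exact h

lemma congC {ι : Type} [Fintype ι] [DecidableEq ι] (M N : Matrix ι ι ℂ) (hM : M.IsSymm)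
    (hN : N.IsSymm) (hMd : M.det ≠ 0) : ∃ S : Matrix ι ι ℂ, S * M * Sᵀ = N := by
  obtain ⟨P, hP⟩ := exists_sqrt M hM
  obtain ⟨Q, hQ⟩ := exists_sqrt N hN
  have hPd : IsUnit P.det := by
    rw [isUnit_iff_ne_zero]
    intro h0
    apply hMd
    rw [← hP, Matrix.det_mul, h0, zero_mul]
  have hPt : IsUnit Pᵀ.det := by rwa [Matrix.det_transpose]
  refine ⟨Q * P⁻¹, ?_⟩
  rw [Matrix.transpose_mul, Matrix.transpose_nonsing_inv, ← hP]
  calc Q * P⁻¹ * (P * Pᵀ) * ((Pᵀ)⁻¹ * Qᵀ) = Q * (P⁻¹ * P) * (Pᵀ * (Pᵀ)⁻¹) * Qᵀ := by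
        simp only [Matrix.mul_assoc]
    _ = N := by
        rw [Matrix.nonsing_inv_mul _ hPd, Matrix.mul_nonsing_inv _ hPt, Matrix.mul_one,
          Matrix.mul_one, hQ]

/-! ### The complex embeddings -/

section emb

variable (F : Type) [Field F] [NumberField F]

/-- the conjugate embedding -/
noncomputable def cj (φ : F →ₐ[ℚ] ℂ) : F →ₐ[ℚ] ℂ :=
  ((starRingEnd ℂ).comp φ.toRingHom).toRatAlgHom

variable {F}

lemma cj_apply (φ : F →ₐ[ℚ] ℂ) (x : F) : cj F φ x = conj (φ x) := rfl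

lemma cj_cj (φ : F →ₐ[ℚ] ℂ) : cj F (cj F φ) = φ := by
  ext x
  rw [cj_apply, cj_apply, Complex.conj_conj]

/-- A choice which is compatible with conjugation. -/
lemma choice {X : Type} (c : X → X) (hc : ∀ x, c (c x) = x) (P : (F →ₐ[ℚ] ℂ) → X → Prop)
    (h1 : ∀ φ x, P φ x → P (cj F φ) (c x)) (h2 : ∀ φ, ∃ x, P φ x)
    (h3 : ∀ φ, cj F φ = φ → ∃ x, P φ x ∧ c x = x) :
    ∃ f : (F →ₐ[ℚ] ℂ) → X, (∀ φ, P φ (f φ)) ∧ ∀ φ, f (cj F φ) = c (f φ) := by
  classical
  have h4 : ∀ φ, ∃ x, P φ x ∧ (cj F φ = φ → c x = x) := by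
    intro φ
    by_cases h : cj F φ = φ
    · obtain ⟨x, hx, hx'⟩ := h3 φ h
      exact ⟨x, hx, fun _ => hx'⟩
    · obtain ⟨x, hx⟩ := h2 φ
      exact ⟨x, hx, fun h' => absurd h' h⟩
  choose s hs hs' using h4
  -- a representative in every pair
  let r : (F →ₐ[ℚ] ℂ) → ℕ := fun φ => Fintype.equivFin (F →ₐ[ℚ] ℂ) φ
  have hr : ∀ φ ψ, r φ = r ψ → φ = ψ := fun φ ψ h =>
    (Fintype.equivFin (F →ₐ[ℚ] ℂ)).injective (Fin.ext h)
  refine ⟨fun φ => if r φ ≤ r (cj F φ) then s φ else c (s (cj F φ)), ?_, ?_⟩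
  · intro φ
    dsimp only
    split_ifs with h
    · exact hs φ
    · have := h1 _ _ (hs (cj F φ))
      rwa [cj_cj] at this
  · intro φ
    dsimp only
    rw [cj_cj]
    rcases lt_trichotomy (r φ) (r (cj F φ)) with h | h | h
    · rw [if_neg (not_le.2 h), if_pos h.le]
    · have e := hr _ _ h
      rw [← e, if_pos le_rfl, hs' φ e.symm]
    · rw [if_pos h.le, if_neg (not_le.2 h), hc]

/-- the matrix of the embeddings -/
noncomputable def V : Matrix (Fin (Module.finrank ℚ F)) (F →ₐ[ℚ] ℂ) ℂ :=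
  Matrix.of fun k φ => φ (Module.finBasis ℚ F k)

open scoped Classical in
lemma V_inv : ∃ b' : Fin (Module.finrank ℚ F) → F,
    (V (F := F)) * (Matrix.of fun φ k => φ (b' k) : Matrix (F →ₐ[ℚ] ℂ) _ ℂ) = 1 ∧
    (Matrix.of fun φ k => φ (b' k) : Matrix (F →ₐ[ℚ] ℂ) _ ℂ) * V (F := F) = 1 := by
  set b' := (Algebra.traceForm ℚ F).dualBasis (traceForm_nondegenerate ℚ F)
    (Module.finBasis ℚ F) with hb'
  have h1 : (V (F := F)) * (Matrix.of fun φ k => φ (b' k) : Matrix (F →ₐ[ℚ] ℂ) _ ℂ) = 1 := by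
    ext k l
    rw [Matrix.mul_apply]
    have e : ∀ φ : F →ₐ[ℚ] ℂ, V k φ * (Matrix.of fun φ k => φ (b' k) : Matrix (F →ₐ[ℚ] ℂ) _ ℂ) φ l =
        φ (Module.finBasis ℚ F k * b' l) := by
      intro φ
      rw [map_mul]
      rfl
    rw [Finset.sum_congr rfl fun φ _ => e φ, ← trace_eq_sum_embeddings (K := ℚ) ℂ]
    have h2 := LinearMap.BilinForm.apply_dualBasis_left (B := Algebra.traceForm ℚ F)
      (traceForm_nondegenerate ℚ F) (Module.finBasis ℚ F)
    rw [mul_comm, ← Algebra.traceForm_apply, hb', h2, Matrix.one_apply]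
    by_cases h : k = l
    · simp [h]
    · rw [if_neg h, if_neg h, map_zero]
  refine ⟨b', h1, ?_⟩
  have hcard : Fintype.card (Fin (Module.finrank ℚ F)) = Fintype.card (F →ₐ[ℚ] ℂ) := by
    rw [Fintype.card_fin, AlgHom.card]
  exact (Matrix.mul_eq_one_comm_of_card_eq _ _ _ hcard).1 h1

open scoped Classical in
/-- **Transfer.** If `A` and `B` are isometric at all real embeddings, then their transfers are
isometric over `ℝ`. -/
lemma transfer {ι : Type} [Fintype ι] (A B : Matrix ι ι F) (hA : A.IsSymm) (hB : B.IsSymm)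
    (hAd : A.det ≠ 0) (hBd : B.det ≠ 0)
    (h : ∀ σ : F →+* ℝ, ∃ T : Matrix ι ι ℝ, T * A.map σ * Tᵀ = B.map σ)
    (tA tB : Matrix (ι × Fin (Module.finrank ℚ F)) (ι × Fin (Module.finrank ℚ F)) ℝ)
    (htA : ∀ p q, tA p q = ((Algebra.trace ℚ F
      (Module.finBasis ℚ F p.2 * Module.finBasis ℚ F q.2 * A p.1 q.1) : ℚ) : ℝ))
    (htB : ∀ p q, tB p q = ((Algebra.trace ℚ F
      (Module.finBasis ℚ F p.2 * Module.finBasis ℚ F q.2 * B p.1 q.1) : ℚ) : ℝ)) :
    tA.det ≠ 0 ∧ ∃ T : Matrix (ι × Fin (Module.finrank ℚ F)) (ι × Fin (Module.finrank ℚ F)) ℝ,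
      T.det ≠ 0 ∧ T * tA * Tᵀ = tB := by
  -- the local isometries
  have hmapdet : ∀ (φ : F →ₐ[ℚ] ℂ) (M : Matrix ι ι F), M.det ≠ 0 → (M.map φ).det ≠ 0 := by
    intro φ M hM h0
    apply hM
    have : φ M.det = 0 := by
      rw [← h0]
      exact RingHom.map_det φ.toRingHom M
    exact (map_eq_zero φ).1 this
  obtain ⟨S, hS, hSc⟩ := choice (F := F) (X := Matrix ι ι ℂ) (fun M => M.map conj)
    (fun M => by ext i j; simp) (fun φ M => M * A.map φ * Mᵀ = B.map φ)
    (fun φ M hM => by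
      have e : ∀ N : Matrix ι ι F, N.map (cj F φ) = (N.map φ).map conj := fun N => by
        ext i j
        rfl
      rw [e, e, ← hM, Matrix.map_mul, Matrix.map_mul, Matrix.transpose_map])
    (fun φ => congC _ _ (by
        ext i j
        show φ (A j i) = φ (A i j)
        rw [hA.apply]) (by
        ext i j
        show φ (B j i) = φ (B i j)
        rw [hB.apply]) (hmapdet φ A hAd))
    (fun φ hφ => by
      have hr : NumberField.ComplexEmbedding.IsReal φ.toRingHom := by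
        ext x
        exact congrArg (fun ψ : F →ₐ[ℚ] ℂ => ψ x) hφ
      obtain ⟨T, hT⟩ := h hr.embedding
      refine ⟨T.map Complex.ofReal, ?_, ?_⟩
      · have e : ∀ N : Matrix ι ι F, N.map φ = (N.map hr.embedding).map Complex.ofReal := by
          intro N
          ext i j
          exact (NumberField.ComplexEmbedding.IsReal.coe_embedding_apply hr (N i j)).symm
        rw [e, e, ← hT]
        ext i j
        simp [Matrix.mul_apply]
      · ext i j
        simp)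
  obtain ⟨b', hV1, hV2⟩ := V_inv (F := F)
  set U : Matrix (F →ₐ[ℚ] ℂ) (Fin (Module.finrank ℚ F)) ℂ := Matrix.of fun φ k => φ (b' k) with hU
  set W : Matrix (ι × Fin (Module.finrank ℚ F)) (ι × (F →ₐ[ℚ] ℂ)) ℂ :=
    (1 : Matrix ι ι ℂ) ⊗ₖ V with hW
  set W' : Matrix (ι × (F →ₐ[ℚ] ℂ)) (ι × Fin (Module.finrank ℚ F)) ℂ :=
    (1 : Matrix ι ι ℂ) ⊗ₖ U with hW'
  have hWW' : W * W' = 1 := by
    rw [hW, hW', ← Matrix.mul_kronecker_mul, hV1, Matrix.mul_one, Matrix.one_kronecker_one]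
  have hW'W : W' * W = 1 := by
    rw [hW, hW', ← Matrix.mul_kronecker_mul, hV2, Matrix.mul_one, Matrix.one_kronecker_one]
  have hT : ∀ (M : Matrix ι ι F)
      (tM : Matrix (ι × Fin (Module.finrank ℚ F)) (ι × Fin (Module.finrank ℚ F)) ℝ),
      (∀ p q, tM p q = ((Algebra.trace ℚ F
        (Module.finBasis ℚ F p.2 * Module.finBasis ℚ F q.2 * M p.1 q.1) : ℚ) : ℝ)) →
      tM.map Complex.ofReal = W * Matrix.blockDiagonal (fun φ : F →ₐ[ℚ] ℂ => M.map φ) * Wᵀ := by
    intro M tM htM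
    ext ⟨i, k⟩ ⟨j, l⟩
    have e1 : (tM.map Complex.ofReal) (i, k) (j, l) =
        ∑ φ : F →ₐ[ℚ] ℂ, V k φ * φ (M i j) * V l φ := by
      rw [Matrix.map_apply, htM]
      have := trace_eq_sum_embeddings (K := ℚ) ℂ
        (x := Module.finBasis ℚ F k * Module.finBasis ℚ F l * M i j)
      rw [eq_ratCast] at this
      rw [Complex.ofReal_ratCast, this]
      refine Finset.sum_congr rfl fun φ _ => ?_
      rw [map_mul, map_mul]
      show _ = φ (Module.finBasis ℚ F k) * φ (M i j) * φ (Module.finBasis ℚ F l)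
      ring
    rw [e1]
    simp only [Matrix.mul_apply, Fintype.sum_prod_type, hW, Matrix.kroneckerMap_apply,
      Matrix.transpose_apply, Matrix.blockDiagonal_apply, Matrix.one_apply, ite_mul, one_mul,
      zero_mul, mul_ite, mul_zero, Finset.sum_ite_eq, Finset.sum_ite_eq', Finset.mem_univ, if_true,
      Matrix.map_apply]
    rw [Finset.sum_eq_single j]
    · simp
    · intro b _ hb
      refine Finset.sum_eq_zero fun x _ => ?_
      simp [Ne.symm hb]
    · simp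
  -- the matrix of the isometry
  set TC : Matrix (ι × Fin (Module.finrank ℚ F)) (ι × Fin (Module.finrank ℚ F)) ℂ :=
    W * Matrix.blockDiagonal S * W' with hTC
  have hTCe : ∀ i k j l, TC (i, k) (j, l) = ∑ φ : F →ₐ[ℚ] ℂ, V k φ * S φ i j * U φ l := by
    intro i k j l
    rw [hTC]
    simp only [Matrix.mul_apply, Fintype.sum_prod_type, hW, hW', Matrix.kroneckerMap_apply,
      Matrix.blockDiagonal_apply, Matrix.one_apply, ite_mul, one_mul,
      zero_mul, mul_ite, mul_zero, Finset.sum_ite_eq, Finset.sum_ite_eq', Finset.mem_univ, if_true]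
    rw [Finset.sum_eq_single j]
    · simp
    · intro b _ hb
      refine Finset.sum_eq_zero fun x _ => ?_
      simp [hb]
    · simp
  have hTCr : ∀ p q, conj (TC p q) = TC p q := by
    rintro ⟨i, k⟩ ⟨j, l⟩
    rw [hTCe, map_sum]
    refine Fintype.sum_bijective (cj F) (Function.Involutive.bijective cj_cj) _ _ fun φ => ?_
    rw [map_mul, map_mul, hSc, Matrix.map_apply]
    rfl
  set T : Matrix (ι × Fin (Module.finrank ℚ F)) (ι × Fin (Module.finrank ℚ F)) ℝ :=
    Matrix.of fun p q => (TC p q).re with hTd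
  have hTm : T.map Complex.ofReal = TC := by
    ext p q
    exact Complex.conj_eq_iff_re.1 (hTCr p q)
  have hdm : ∀ M : Matrix (ι × Fin (Module.finrank ℚ F)) (ι × Fin (Module.finrank ℚ F)) ℝ,
      (M.map Complex.ofReal).det = (M.det : ℂ) := fun M =>
    (RingHom.map_det Complex.ofRealHom M).symm
  have hdne : ∀ M : Matrix (ι × Fin (Module.finrank ℚ F)) (ι × Fin (Module.finrank ℚ F)) ℝ,
      (∃ N, M.map Complex.ofReal * N = 1) → M.det ≠ 0 := by
    rintro M ⟨N, hN⟩ h0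
    have := Matrix.det_ne_zero_of_right_inverse hN
    rw [hdm, h0] at this
    exact this Complex.ofReal_zero
  -- inverses
  have hAi : ∀ φ : F →ₐ[ℚ] ℂ, A.map φ * (A.map φ)⁻¹ = 1 := fun φ =>
    Matrix.mul_nonsing_inv _ (isUnit_iff_ne_zero.2 (hmapdet φ A hAd))
  have hSi : ∀ φ : F →ₐ[ℚ] ℂ, S φ * (S φ)⁻¹ = 1 := fun φ => by
    refine Matrix.mul_nonsing_inv _ (isUnit_iff_ne_zero.2 fun h0 => ?_)
    apply hmapdet φ B hBd
    rw [← hS φ, Matrix.det_mul, Matrix.det_mul, h0, zero_mul, zero_mul]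
  have hbi : ∀ D D' : (F →ₐ[ℚ] ℂ) → Matrix ι ι ℂ, (∀ φ, D φ * D' φ = 1) →
      Matrix.blockDiagonal D * Matrix.blockDiagonal D' = 1 := by
    intro D D' hD
    rw [← Matrix.blockDiagonal_mul]
    simp only [hD]
    exact Matrix.blockDiagonal_one
  have hWt : Wᵀ * W'ᵀ = 1 := by
    rw [← Matrix.transpose_mul, hW'W, Matrix.transpose_one]
  refine ⟨hdne tA ⟨W'ᵀ * Matrix.blockDiagonal (fun φ : F →ₐ[ℚ] ℂ => (A.map φ)⁻¹) * W', ?_⟩, T,
    hdne T ⟨W * Matrix.blockDiagonal (fun φ : F →ₐ[ℚ] ℂ => (S φ)⁻¹) * W', ?_⟩, ?_⟩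
  · rw [hT A tA htA]
    calc W * Matrix.blockDiagonal (fun φ : F →ₐ[ℚ] ℂ => A.map φ) * Wᵀ *
          (W'ᵀ * Matrix.blockDiagonal (fun φ : F →ₐ[ℚ] ℂ => (A.map φ)⁻¹) * W')
        = W * Matrix.blockDiagonal (fun φ : F →ₐ[ℚ] ℂ => A.map φ) * (Wᵀ * W'ᵀ) *
          Matrix.blockDiagonal (fun φ : F →ₐ[ℚ] ℂ => (A.map φ)⁻¹) * W' := by
          simp only [Matrix.mul_assoc]
      _ = W * (Matrix.blockDiagonal (fun φ : F →ₐ[ℚ] ℂ => A.map φ) *
          Matrix.blockDiagonal (fun φ : F →ₐ[ℚ] ℂ => (A.map φ)⁻¹)) * W' := by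
          rw [hWt, Matrix.mul_one]
          simp only [Matrix.mul_assoc]
      _ = 1 := by rw [hbi _ _ hAi, Matrix.mul_one, hWW']
  · rw [hTm, hTC]
    calc W * Matrix.blockDiagonal S * W' * (W * Matrix.blockDiagonal (fun φ : F →ₐ[ℚ] ℂ => (S φ)⁻¹) * W')
        = W * Matrix.blockDiagonal S * (W' * W) * Matrix.blockDiagonal (fun φ : F →ₐ[ℚ] ℂ => (S φ)⁻¹) * W' := by
          simp only [Matrix.mul_assoc]
      _ = W * (Matrix.blockDiagonal S * Matrix.blockDiagonal (fun φ : F →ₐ[ℚ] ℂ => (S φ)⁻¹)) * W' := by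
          rw [hW'W, Matrix.mul_one]
          simp only [Matrix.mul_assoc]
      _ = 1 := by rw [hbi _ _ hSi, Matrix.mul_one, hWW']
  · have hinj : ∀ M N : Matrix (ι × Fin (Module.finrank ℚ F)) (ι × Fin (Module.finrank ℚ F)) ℝ,
        M.map Complex.ofReal = N.map Complex.ofReal → M = N := by
      intro M N hMN
      ext p q
      exact Complex.ofReal_injective (congrFun (congrFun hMN p) q)
    apply hinj
    have e1 : (T * tA * Tᵀ).map Complex.ofReal =
        T.map Complex.ofReal * tA.map Complex.ofReal * (T.map Complex.ofReal)ᵀ := by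
      have := fun M N : Matrix (ι × Fin (Module.finrank ℚ F)) (ι × Fin (Module.finrank ℚ F)) ℝ =>
        Matrix.map_mul (L := M) (M := N) (f := Complex.ofRealHom)
      erw [this, this]
      rfl
    rw [e1, hTm, hT A tA htA, hT B tB htB, hTC, Matrix.transpose_mul, Matrix.transpose_mul]
    have hSB : (fun φ : F →ₐ[ℚ] ℂ => B.map φ) = fun φ => S φ * A.map φ * (S φ)ᵀ := by
      funext φ
      exact (hS φ).symm
    rw [hSB]
    have e2 : Matrix.blockDiagonal (fun φ : F →ₐ[ℚ] ℂ => S φ * A.map φ * (S φ)ᵀ) =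
        Matrix.blockDiagonal S * Matrix.blockDiagonal (fun φ : F →ₐ[ℚ] ℂ => A.map φ) *
        (Matrix.blockDiagonal S)ᵀ := by
      rw [Matrix.blockDiagonal_transpose, ← Matrix.blockDiagonal_mul, ← Matrix.blockDiagonal_mul]
    rw [e2]
    calc W * Matrix.blockDiagonal S * W' * (W * Matrix.blockDiagonal (fun φ : F →ₐ[ℚ] ℂ => A.map φ)
          * Wᵀ) * (W'ᵀ * ((Matrix.blockDiagonal S)ᵀ * Wᵀ))
        = W * Matrix.blockDiagonal S * (W' * W) *
          Matrix.blockDiagonal (fun φ : F →ₐ[ℚ] ℂ => A.map φ) * (Wᵀ * W'ᵀ) *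
          (Matrix.blockDiagonal S)ᵀ * Wᵀ := by
          simp only [Matrix.mul_assoc]
      _ = _ := by
          rw [hW'W, hWt, Matrix.mul_one, Matrix.mul_one]
          simp only [Matrix.mul_assoc]

end emb

end Pool.Agent.N374.PF.TrrA
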